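import Pool.Agent.helper92.RC.Spec
import Pool.Agent.helper76.RC.CYC
import Pool.Agent.helper27.RC.FB
import Pool.Agent.helper13.RC.FT
import Pool.Agent.helper36.RC.FZ
import Pool.Agent.helper69.RC.GEN
import Pool.Agent.helper42.RC.KEY
import Pool.Agent.helper31.RC.LJ
import Pool.Agent.helper2.RC.QFR
import Pool.Agent.helper63.RC.QIM
import Pool.Agent.helper6.RC.QJO
import Pool.Agent.helper29.RC.QNO
import Pool.Agent.helper29.RC.QPI
import Pool.Agent.helper23.RC.QPR
import Pool.Agent.helper8.RC.STA
import Pool.Agent.helper92.RC.STB
import Pool.Agent.helper36.RC.TOR
import Pool.Agent.helper39.RC.TOW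

/-!
# A proper radical class of groups that is closed under Cartesian products and contains `ℤ`

The class is the smallest one that contains the commutative groups and every group `G` all of whose elements have the form
`θ x * θ' y`, where `θ`, `θ'` are homomorphisms to `G` with normal images, defined on normal subgroups of Cartesian products of
groups of the class constructed before. No group of the class has a subnormal subgroup with a homomorphism to a countable free
group with a non-commutative image.
-/

set_option autoImplicit false

namespace Pool.Agent.Results.MP_cf13c7_al.ProductClosedRadicalClass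

universe u

/-- A class of groups is radical when it is closed under homomorphic images and normal subgroups
and contains every group that is generated by its normal subgroups lying in the class. -/
structure IsRadical (C : (G : Type u) → [Group G] → Prop) : Prop where
  image : ∀ (G H : Type u) [Group G] [Group H] (f : G →* H), Function.Surjective f → C G → C H
  normal : ∀ (G : Type u) [Group G] (N : Subgroup G), N.Normal → C G → C N
  join : ∀ (G : Type u) [Group G], sSup {N : Subgroup G | N.Normal ∧ C N} = ⊤ → C G

/-- A class of groups is closed under Cartesian (unrestricted direct) products. -/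
def IsProductClosed (C : (G : Type u) → [Group G] → Prop) : Prop :=
  ∀ (I : Type u) (G : I → Type u) [∀ i, Group (G i)], (∀ i, C (G i)) → C (∀ i, G i)

open Pool.Agent.helper92.RC

/-- **Theorem.** There is a radical class of groups which is closed under Cartesian products, contains the infinite cyclic
group and does not contain the free group of rank two. -/
theorem result : ∃ C : (G : Type u) → [Group G] → Prop, IsRadical C ∧ IsProductClosed C ∧
    C (ULift.{u} (Multiplicative ℤ)) ∧ ¬ C (FreeGroup (ULift.{u} Bool)) := by
  have cyc : CYC_stmt.{u} := CYC
  have gen : GEN_stmt.{u} := GEN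
  have tor : TOR_stmt.{u} := TOR
  have fz : FZ_stmt.{u} := FZ cyc gen
  have ft : FT_stmt.{u} := FT cyc tor fz
  have fb : FB_stmt.{u} := FB cyc gen
  have lj : LJ_stmt.{u} := LJ fz
  have sta : STA_stmt.{u} := STA lj ft STB
  have tow : TOW_stmt.{u} := TOW sta fb KEY
  have qpi : QPI_stmt.{u} := QPI
  refine ⟨fun G hG => @Cl G hG, ⟨QIM, QNO qpi, QJO qpi⟩, QPR qpi, ?_, QFR tow⟩
  exact Cl_comm _ (fun x y => mul_comm x y)

end Pool.Agent.Results.MP_cf13c7_al.ProductClosedRadicalClass
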