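import Mathlib
import Pool.Agent.helper42.SL2Char2

/-!
# A first-order definable radical class of groups that is not locally finite

The class consists of the groups in which, for every element `g`, the set `P(g)` of the elements
`g ^ x * (g ^ y)⁻¹` is a subgroup containing `g`, the group is the product of `P(g)` and its
centraliser, and some `h₁, h₂` in `P(g)` satisfy `x ∈ P([x, h₁]) P([x, h₂])` for all `x ∈ P(g)`.
-/

set_option autoImplicit false

namespace Pool.Agent.Results.MP_cf13c7_al.RadicalClass

universe u

/-- The function symbols of the language of groups. -/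
inductive GroupFunc : ℕ → Type
  | mul : GroupFunc 2
  | inv : GroupFunc 1
  | one : GroupFunc 0

/-- The first-order language of groups: a binary symbol for the product, a unary symbol for the
inverse, a constant for the neutral element, no relation symbols. -/
def groupLanguage : FirstOrder.Language.{0, 0} := ⟨GroupFunc, fun _ => Empty⟩

/-- The interpretation of the language of groups in a group. -/
def groupStructure (G : Type u) [Group G] : groupLanguage.Structure G where
  funMap := fun {_} f v => match f, v with
    | .mul, v => v 0 * v 1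
    | .inv, v => (v 0)⁻¹
    | .one, _ => 1
  RelMap := fun r => nomatch r

/-- A group satisfies a set of first-order sentences in the language of groups. -/
def Satisfies (G : Type u) [Group G] (T : groupLanguage.Theory) : Prop :=
  @FirstOrder.Language.Theory.Model groupLanguage G (groupStructure G) T

/-- A class of groups is radical when it is closed under homomorphic images and normal subgroups
and contains every group that is generated by its normal subgroups lying in the class. -/
structure IsRadical (C : (G : Type u) → [Group G] → Prop) : Prop where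
  image : ∀ (G H : Type u) [Group G] [Group H] (f : G →* H), Function.Surjective f → C G → C H
  normal : ∀ (G : Type u) [Group G] (N : Subgroup G), N.Normal → C G → C N
  join : ∀ (G : Type u) [Group G], sSup {N : Subgroup G | N.Normal ∧ C N} = ⊤ → C G

/-- A group is locally finite when its finitely generated subgroups are finite. -/
def IsLocallyFinite (G : Type u) [Group G] : Prop := ∀ H : Subgroup G, H.FG → Finite H

section Sentences

open FirstOrder FirstOrder.Language

variable {α : Type}

/-- Product of terms. -/
def tmul (s t : groupLanguage.Term α) : groupLanguage.Term α :=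
  Functions.apply₂ (L := groupLanguage) GroupFunc.mul s t

/-- Inverse of a term. -/
def tinv (s : groupLanguage.Term α) : groupLanguage.Term α :=
  Functions.apply₁ (L := groupLanguage) GroupFunc.inv s

/-- Conjugate of terms. -/
def tcj (g x : groupLanguage.Term α) : groupLanguage.Term α := tmul (tmul (tinv x) g) x

/-- The term for `cc`. -/
def tcc (g x y : groupLanguage.Term α) : groupLanguage.Term α := tmul (tcj g x) (tinv (tcj g y))

/-- The term for `cm`. -/
def tcm (x y : groupLanguage.Term α) : groupLanguage.Term α := tmul (tinv x) (tcj x y)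

/-- First axiom. -/
def s1 : groupLanguage.Sentence :=
  (∀' ∃' ∃' (Term.bdEqual (&0) (tcc (&0) (&1) (&2))) : groupLanguage.BoundedFormula Empty 0)

/-- Second axiom. -/
def s2 : groupLanguage.Sentence :=
  (∀' ∀' ∀' ∀' ∀' ∃' ∃' (Term.bdEqual (tmul (tcc (&0) (&1) (&2)) (tcc (&0) (&3) (&4)))
    (tcc (&0) (&5) (&6))) : groupLanguage.BoundedFormula Empty 0)

/-- Third axiom. -/
def s3 : groupLanguage.Sentence :=
  (∀' ∀' ∃' ∃' ∃' ((Term.bdEqual (&1) (tmul (tcc (&0) (&2) (&3)) (&4))) ⊓
    (∀' (Term.bdEqual (tmul (&4) (tcj (&0) (&5))) (tmul (tcj (&0) (&5)) (&4))))) :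
    groupLanguage.BoundedFormula Empty 0)

/-- Fourth axiom. -/
def s4 : groupLanguage.Sentence :=
  (∀' ∃' ∃' ∃' ∃' ∀' ∀' ∃' ∃' ∃' ∃' (Term.bdEqual (tcc (&0) (&5) (&6))
    (tmul (tcc (tcm (tcc (&0) (&5) (&6)) (tcc (&0) (&1) (&2))) (&7) (&8))
      (tcc (tcm (tcc (&0) (&5) (&6)) (tcc (&0) (&3) (&4))) (&9) (&10)))) :
    groupLanguage.BoundedFormula Empty 0)

end Sentences

section Realize

open FirstOrder FirstOrder.Language Pool.Agent.helper42.RadClass

variable (G : Type u) [Group G]

lemma realize_tmul {α : Type} (s t : groupLanguage.Term α) (v : α → G) :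
    @Term.realize groupLanguage G (groupStructure G) α v (tmul s t) =
      @Term.realize groupLanguage G (groupStructure G) α v s *
        @Term.realize groupLanguage G (groupStructure G) α v t := by
  let _ : groupLanguage.Structure G := groupStructure G
  exact Term.realize_functions_apply₂

lemma realize_tinv {α : Type} (s : groupLanguage.Term α) (v : α → G) :
    @Term.realize groupLanguage G (groupStructure G) α v (tinv s) =
      (@Term.realize groupLanguage G (groupStructure G) α v s)⁻¹ := by
  let _ : groupLanguage.Structure G := groupStructure G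
  exact Term.realize_functions_apply₁

lemma realize_tcj {α : Type} (s t : groupLanguage.Term α) (v : α → G) :
    @Term.realize groupLanguage G (groupStructure G) α v (tcj s t) =
      cj (@Term.realize groupLanguage G (groupStructure G) α v s)
        (@Term.realize groupLanguage G (groupStructure G) α v t) := by
  rw [tcj, realize_tmul, realize_tmul, realize_tinv, cj]

lemma realize_tcc {α : Type} (r s t : groupLanguage.Term α) (v : α → G) :
    @Term.realize groupLanguage G (groupStructure G) α v (tcc r s t) =
      cc (@Term.realize groupLanguage G (groupStructure G) α v r)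
        (@Term.realize groupLanguage G (groupStructure G) α v s)
        (@Term.realize groupLanguage G (groupStructure G) α v t) := by
  rw [tcc, realize_tmul, realize_tinv, realize_tcj, realize_tcj, cc]

lemma realize_tcm {α : Type} (s t : groupLanguage.Term α) (v : α → G) :
    @Term.realize groupLanguage G (groupStructure G) α v (tcm s t) =
      cm (@Term.realize groupLanguage G (groupStructure G) α v s)
        (@Term.realize groupLanguage G (groupStructure G) α v t) := by
  rw [tcm, realize_tmul, realize_tinv, realize_tcj, cm]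

lemma realize_s1 : @Sentence.Realize groupLanguage G (groupStructure G) s1 ↔
    ∀ g : G, ∃ x y, g = cc g x y := by
  let _ : groupLanguage.Structure G := groupStructure G
  simp only [Sentence.Realize, Formula.Realize, s1, BoundedFormula.realize_all,
    BoundedFormula.realize_ex, BoundedFormula.realize_bdEqual, Term.realize_var, Sum.elim_inr]
  simp only [realize_tcc, Term.realize_var, Sum.elim_inr]
  rfl

lemma realize_s2 : @Sentence.Realize groupLanguage G (groupStructure G) s2 ↔
    ∀ g x y z t : G, ∃ u v, cc g x y * cc g z t = cc g u v := by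
  let _ : groupLanguage.Structure G := groupStructure G
  simp only [Sentence.Realize, Formula.Realize, s2, BoundedFormula.realize_all,
    BoundedFormula.realize_ex, BoundedFormula.realize_bdEqual]
  simp only [realize_tcc, realize_tmul, Term.realize_var, Sum.elim_inr]
  rfl

lemma realize_s3 : @Sentence.Realize groupLanguage G (groupStructure G) s3 ↔
    ∀ g a : G, ∃ u v w, a = cc g u v * w ∧ ∀ y, w * cj g y = cj g y * w := by
  let _ : groupLanguage.Structure G := groupStructure G
  simp only [Sentence.Realize, Formula.Realize, s3, BoundedFormula.realize_all,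
    BoundedFormula.realize_ex, BoundedFormula.realize_bdEqual, BoundedFormula.realize_inf]
  simp only [realize_tcc, realize_tcj, realize_tmul, Term.realize_var, Sum.elim_inr]
  rfl

lemma realize_s4 : @Sentence.Realize groupLanguage G (groupStructure G) s4 ↔
    ∀ g : G, ∃ a b c d, ∀ u v, ∃ p q r s, cc g u v =
      cc (cm (cc g u v) (cc g a b)) p q * cc (cm (cc g u v) (cc g c d)) r s := by
  let _ : groupLanguage.Structure G := groupStructure G
  simp only [Sentence.Realize, Formula.Realize, s4, BoundedFormula.realize_all,
    BoundedFormula.realize_ex, BoundedFormula.realize_bdEqual]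
  simp only [realize_tcc, realize_tcj, realize_tcm, realize_tmul, Term.realize_var, Sum.elim_inr]
  rfl

lemma isK_iff_satisfies : IsK G ↔ Satisfies G {s1, s2, s3, s4} := by
  let _ : groupLanguage.Structure G := groupStructure G
  have h0 : Satisfies G {s1, s2, s3, s4} ↔ ∀ φ ∈ ({s1, s2, s3, s4} : groupLanguage.Theory),
      @Sentence.Realize groupLanguage G (groupStructure G) φ := Theory.model_iff _
  rw [h0]
  simp only [Set.mem_insert_iff, Set.mem_singleton_iff, forall_eq_or_imp, forall_eq]
  rw [realize_s1, realize_s2, realize_s3, realize_s4]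
  constructor
  · intro h
    refine ⟨fun g => ?_, fun g x y z t => ?_, fun g a => ?_, fun g => ?_⟩
    · obtain ⟨x, -, y, -, h1⟩ := h.r1 g trivial
      exact ⟨x, y, h1⟩
    · obtain ⟨u, -, v, -, h1⟩ := h.r2 g trivial x trivial y trivial z trivial t trivial
      exact ⟨u, v, h1⟩
    · obtain ⟨u, -, v, -, w, -, h1, h2⟩ := h.r3 g trivial a trivial
      exact ⟨u, v, w, h1, fun y => h2 y trivial⟩
    · obtain ⟨a, -, b, -, c, -, d, -, h1⟩ := h.r4 g trivial
      refine ⟨a, b, c, d, fun u v => ?_⟩
      obtain ⟨p, -, q, -, r, -, s, -, h2⟩ := h1 u trivial v trivial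
      exact ⟨p, q, r, s, h2⟩
  · rintro ⟨h1, h2, h3, h4⟩
    constructor
    · intro g _
      obtain ⟨x, y, h⟩ := h1 g
      exact ⟨x, trivial, y, trivial, h⟩
    · intro g _ x _ y _ z _ t _
      obtain ⟨u, v, h⟩ := h2 g x y z t
      exact ⟨u, trivial, v, trivial, h⟩
    · intro g _ a _
      obtain ⟨u, v, w, h, h'⟩ := h3 g a
      exact ⟨u, trivial, v, trivial, w, trivial, h, fun y _ => h' y⟩
    · intro g _
      obtain ⟨a, b, c, d, h⟩ := h4 g
      refine ⟨a, trivial, b, trivial, c, trivial, d, trivial, fun u _ v _ => ?_⟩
      obtain ⟨p, q, r, s, h'⟩ := h u v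
      exact ⟨p, trivial, q, trivial, r, trivial, s, trivial, h'⟩

end Realize

section Examples

open Pool.Agent.helper42.RadClass

/-- The field used in the example. -/
abbrev Fld : Type u := AlgebraicClosure (RatFunc (ULift.{u} (ZMod 2)))

instance : CharP (ULift.{u} (ZMod 2)) 2 :=
  charP_of_injective_ringHom (f := (ULift.ringEquiv.symm : ZMod 2 ≃+* ULift.{u} (ZMod 2)).toRingHom)
    (RingEquiv.injective _) 2

instance : CharP Fld.{u} 2 :=
  charP_of_injective_algebraMap (algebraMap (ULift.{u} (ZMod 2)) Fld.{u}).injective 2

/-- A transcendental element of the field. -/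
noncomputable def tt : Fld.{u} :=
  algebraMap (RatFunc (ULift.{u} (ZMod 2))) Fld.{u} RatFunc.X

lemma tt_pow_ne_one {n : ℕ} (hn : 0 < n) : (tt : Fld.{u}) ^ n ≠ 1 := by
  intro h
  rw [tt, ← map_pow] at h
  have h1 : (RatFunc.X : RatFunc (ULift.{u} (ZMod 2))) ^ n = 1 := by
    apply (algebraMap (RatFunc (ULift.{u} (ZMod 2))) Fld.{u}).injective
    rw [h, map_one]
  rw [← RatFunc.algebraMap_X, ← map_pow] at h1
  have h2 : (Polynomial.X : Polynomial (ULift.{u} (ZMod 2))) ^ n = 1 := by
    apply RatFunc.algebraMap_injective (ULift.{u} (ZMod 2))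
    rw [h1, map_one]
  have h3 := congrArg Polynomial.natDegree h2
  rw [Polynomial.natDegree_X_pow, Polynomial.natDegree_one] at h3
  omega

lemma tt_ne_zero : (tt : Fld.{u}) ≠ 0 := by
  intro h
  have h1 : (RatFunc.X : RatFunc (ULift.{u} (ZMod 2))) = 0 := by
    apply (algebraMap (RatFunc (ULift.{u} (ZMod 2))) Fld.{u}).injective
    rw [map_zero]
    exact h
  exact RatFunc.X_ne_zero h1

/-- An element of infinite order. -/
noncomputable def gg : Matrix.SpecialLinearGroup (Fin 2) Fld.{u} :=
  ⟨!![tt, 0; 0, tt⁻¹], by
    rw [Matrix.det_fin_two_of, mul_inv_cancel₀ tt_ne_zero]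
    ring⟩

lemma gg_pow (n : ℕ) : (gg.{u} ^ n) 0 0 = tt ^ n := by
  induction n with
  | zero => simp
  | succ n ih =>
    rw [pow_succ, pow_succ, ← ih]
    simp [Matrix.mul_apply, Fin.sum_univ_two, gg]

lemma not_locallyFinite : ¬ IsLocallyFinite (Matrix.SpecialLinearGroup (Fin 2) Fld.{u}) := by
  intro h
  have h1 : Finite (Subgroup.zpowers gg.{u}) := by
    apply h
    rw [Subgroup.zpowers_eq_closure]
    exact ⟨{gg}, by simp⟩
  have h2 : IsOfFinOrder gg.{u} := by
    rw [← finite_zpowers]
    exact h1
  obtain ⟨n, hn, h3⟩ := isOfFinOrder_iff_pow_eq_one.1 h2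
  have h4 := gg_pow.{u} n
  rw [h3] at h4
  exact tt_pow_ne_one hn h4.symm

lemma not_isK_of_comm (A : Type u) [CommGroup A] [Nontrivial A] : ¬ IsK A := by
  intro h
  obtain ⟨g, hg⟩ := exists_ne (1 : A)
  obtain ⟨x, -, y, -, h1⟩ := h.r1 g trivial
  apply hg
  rw [h1, cc, cj, cj]
  have h2 : ∀ z : A, z⁻¹ * g * z = g := fun z => by rw [mul_comm z⁻¹, inv_mul_cancel_right]
  rw [h2, h2, mul_inv_cancel]

end Examples

/-- **Main theorem.** There is a finite set of first-order sentences in the language of groups
whose class of models is a radical class, contains a group that is not locally finite, and is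
not the class of all groups. -/
theorem result : ∃ T : groupLanguage.Theory, T.Finite ∧
    IsRadical.{u} (fun G _ => Satisfies G T) ∧
    (∃ (G : Type u) (_ : Group G), Satisfies G T ∧ ¬ IsLocallyFinite G) ∧
    (∃ (G : Type u) (_ : Group G), ¬ Satisfies G T) := by
  refine ⟨{s1, s2, s3, s4}, by simp, ⟨?_, ?_, ?_⟩, ?_, ?_⟩
  · intro G H _ _ f hf h
    rw [← isK_iff_satisfies] at h ⊢
    exact h.of_surjective f hf
  · intro G _ N hN h
    rw [← isK_iff_satisfies] at h ⊢
    exact h.subgroup hN
  · intro G _ h
    simp only [← isK_iff_satisfies] at h ⊢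
    exact Pool.Agent.helper42.RadClass.IsK.of_sSup h
  · exact ⟨Matrix.SpecialLinearGroup (Fin 2) Fld.{u}, inferInstance,
      (isK_iff_satisfies _).1 Pool.Agent.helper42.RadClass.isK_SL2, not_locallyFinite⟩
  · refine ⟨ULift.{u} (Multiplicative ℤ), inferInstance, fun h => ?_⟩
    exact not_isK_of_comm _ ((isK_iff_satisfies _).2 h)

end Pool.Agent.Results.MP_cf13c7_al.RadicalClass
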